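import Mathlib

set_option autoImplicit false

/-!
# Distinct-distance subsets of the grid in logarithmic dimension

For `m ≥ 1`, `d = 9 m` and `n = 2 ^ (3 m - 1) + 1` the grid `{1, ..., n} ^ d` has a subset with
`8 ^ m ≥ n` points and distinct distances. So the conjectured bound
`k_d(n) < c d^(2/3) n^(2/3) (log n)^(1/3)` is false for every constant `c`.

Construction: let `F` be the field with `2 ^ κ` elements. The set of the pairs `(x, x ^ 3)`, `x ∈ F`,
is a Sidon set of the elementary abelian `2`-group `F × F`. Write these pairs as `0`-`1`-vectors with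
`2 κ` entries and realise the entries by coordinates that take only two values, in such a way that a
change of the `j`-th entry contributes `2 ^ j` to the square of the distance.
-/

namespace Pool.Agent.Results.MP_ae055e_co.LogDimension

open Finset

/-- The cube `{1, ..., n} ^ d` of lattice points. -/
def Grid (d n : ℕ) : Set (EuclideanSpace ℝ (Fin d)) :=
  {x | ∀ i : Fin d, ∃ a : ℕ, 1 ≤ a ∧ a ≤ n ∧ x i = (a : ℝ)}

/-- `S` has distinct distances: different unordered pairs of different points of `S` have different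
distances. -/
def DistinctDistances {d : ℕ} (S : Finset (EuclideanSpace ℝ (Fin d))) : Prop :=
  ∀ x ∈ S, ∀ y ∈ S, ∀ z ∈ S, ∀ w ∈ S, x ≠ y → z ≠ w → dist x y = dist z w →
    (x = z ∧ y = w) ∨ (x = w ∧ y = z)

/-- `k d n`: the largest size of a subset of `{1, ..., n} ^ d` with distinct distances. -/
noncomputable def k (d n : ℕ) : ℕ :=
  sSup {m : ℕ | ∃ S : Finset (EuclideanSpace ℝ (Fin d)), (S : Set _) ⊆ Grid d n ∧
    DistinctDistances S ∧ S.card = m}

lemma grid_finite (d n : ℕ) : (Grid d n).Finite := by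
  classical
  set T : Finset (EuclideanSpace ℝ (Fin d)) :=
    (Fintype.piFinset (fun _ : Fin d => (range (n + 1)).image (fun a : ℕ => (a : ℝ)))).image
      (WithLp.toLp 2) with hT
  refine Set.Finite.subset T.finite_toSet ?_
  intro x hx
  rw [mem_coe, hT, mem_image]
  refine ⟨x.ofLp, ?_, rfl⟩
  rw [Fintype.mem_piFinset]
  intro i
  obtain ⟨a, -, ha2, ha⟩ := hx i
  rw [mem_image]
  exact ⟨a, mem_range.2 (by omega), ha.symm⟩

lemma bdd (d n : ℕ) : BddAbove {m : ℕ | ∃ S : Finset (EuclideanSpace ℝ (Fin d)),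
    (S : Set _) ⊆ Grid d n ∧ DistinctDistances S ∧ S.card = m} := by
  refine ⟨(grid_finite d n).toFinset.card, ?_⟩
  rintro m ⟨S, hS, -, rfl⟩
  apply card_le_card
  intro x hx
  rw [Set.Finite.mem_toFinset]
  exact hS hx

/-- uniqueness of digits in base `4` -/
lemma digits_unique : ∀ (κ : ℕ) (t t' : Fin κ → ℕ), (∀ i, t i < 4) → (∀ i, t' i < 4) →
    ∑ i : Fin κ, 4 ^ (i : ℕ) * t i = ∑ i : Fin κ, 4 ^ (i : ℕ) * t' i → t = t' := by
  intro κ
  induction κ with
  | zero =>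
    intro t t' _ _ _
    ext i
    exact i.elim0
  | succ κ ih =>
    intro t t' ht ht' h
    rw [Fin.sum_univ_succ, Fin.sum_univ_succ] at h
    simp only [Fin.val_zero, pow_zero, one_mul, Fin.val_succ] at h
    have h1 : ∀ s : Fin (κ + 1) → ℕ, ∑ i : Fin κ, 4 ^ ((i : ℕ) + 1) * s i.succ =
        4 * ∑ i : Fin κ, 4 ^ (i : ℕ) * s i.succ := by
      intro s
      rw [mul_sum]
      apply sum_congr rfl
      intro i _
      ring
    rw [h1, h1] at h
    have h2 := ht 0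
    have h3 := ht' 0
    have h4 : t 0 = t' 0 := by omega
    have h5 := ih (fun i => t i.succ) (fun i => t' i.succ) (fun i => ht _) (fun i => ht' _)
      (by omega)
    ext i
    refine Fin.cases h4 (fun j => ?_) i
    exact congrFun h5 j

/-- `0` if the two bits agree, `1` if they differ -/
def δ (u v : ZMod 2) : ℕ := if u = v then 0 else 1

lemma δ_sq (u v : ZMod 2) : ((u.val : ℤ) - (v.val : ℤ)) ^ 2 = (δ u v : ℤ) := by
  revert u v; decide

lemma δ_sub (u v u' v' : ZMod 2) (h : δ u v = δ u' v') : u - v = u' - v' := by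
  revert u v u' v'; decide

lemma δ_le (u v : ZMod 2) : δ u v ≤ 1 := by
  revert u v; decide

section Construction

variable (κ : ℕ) {F : Type} [Field F] [Algebra (ZMod 2) F] (e : F ≃ₗ[ZMod 2] (Fin κ → ZMod 2))

/-- the coordinates of the points, indexed by `Fin κ × Fin 3` -/
def coord (x : F) (p : Fin κ × Fin 3) : ℕ :=
  1 + 2 ^ (p.1 : ℕ) * (if p.2 = 0 then (e x p.1).val else (e (x ^ 3) p.1).val)

/-- the points -/
noncomputable def P (x : F) : EuclideanSpace ℝ (Fin (κ * 3)) :=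
  WithLp.toLp 2 (fun i => (coord κ e x (finProdFinEquiv.symm i) : ℝ))

/-- the digits of the square of the distance -/
def dig (x y : F) (i : Fin κ) : ℕ := δ (e x i) (e y i) + 2 * δ (e (x ^ 3) i) (e (y ^ 3) i)

lemma dig_lt (x y : F) (i : Fin κ) : dig κ e x y i < 4 := by
  unfold dig
  have h1 := δ_le (e x i) (e y i)
  have h2 := δ_le (e (x ^ 3) i) (e (y ^ 3) i)
  omega

lemma dist_sq (x y : F) :
    dist (P κ e x) (P κ e y) ^ 2 = ((∑ i : Fin κ, 4 ^ (i : ℕ) * dig κ e x y i : ℕ) : ℝ) := by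
  rw [EuclideanSpace.dist_eq, Real.sq_sqrt (by positivity)]
  rw [← (finProdFinEquiv (m := κ) (n := 3)).sum_comp, Fintype.sum_prod_type]
  push_cast
  apply sum_congr rfl
  intro i _
  have hz : ∀ u v : ZMod 2, ((u.val : ℝ) - (v.val : ℝ)) ^ 2 = (δ u v : ℝ) := by
    intro u v
    have := δ_sq u v
    exact_mod_cast congrArg (Int.cast : ℤ → ℝ) this
  have h1 : ∀ (j : Fin 3) (u v : F),
      (P κ e u (finProdFinEquiv (i, j)) : ℝ) = 1 + 2 ^ (i : ℕ) *
        (((if j = 0 then (e u i).val else (e (u ^ 3) i).val) : ℕ) : ℝ) := by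
    intro j u v
    simp only [P, coord, Equiv.symm_apply_apply]
    push_cast
    ring
  simp only [Fin.sum_univ_three, Real.dist_eq, sq_abs]
  rw [h1 0 x x, h1 0 y y, h1 1 x x, h1 1 y y, h1 2 x x, h1 2 y y]
  simp only [if_true, Fin.reduceEq, if_false]
  unfold dig
  push_cast
  rw [← hz (e x i) (e y i), ← hz (e (x ^ 3) i) (e (y ^ 3) i)]
  have h4 : (4 : ℝ) ^ (i : ℕ) = (2 ^ (i : ℕ)) ^ 2 := by
    rw [← pow_mul, mul_comm, pow_mul]
    norm_num
  rw [h4]
  ring

lemma eq_of_dist (x y z w : F) (h : dist (P κ e x) (P κ e y) = dist (P κ e z) (P κ e w)) :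
    x - y = z - w ∧ x ^ 3 - y ^ 3 = z ^ 3 - w ^ 3 := by
  have h1 := congrArg (fun r : ℝ => r ^ 2) h
  simp only [dist_sq] at h1
  have h2 := digits_unique κ _ _ (dig_lt κ e x y) (dig_lt κ e z w) (by exact_mod_cast h1)
  have h3 : ∀ i, δ (e x i) (e y i) = δ (e z i) (e w i) ∧
      δ (e (x ^ 3) i) (e (y ^ 3) i) = δ (e (z ^ 3) i) (e (w ^ 3) i) := by
    intro i
    have h4 := congrFun h2 i
    unfold dig at h4
    have a1 := δ_le (e x i) (e y i)
    have a2 := δ_le (e (x ^ 3) i) (e (y ^ 3) i)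
    have a3 := δ_le (e z i) (e w i)
    have a4 := δ_le (e (z ^ 3) i) (e (w ^ 3) i)
    omega
  constructor
  · apply e.injective
    rw [map_sub, map_sub]
    ext i
    simp only [Pi.sub_apply]
    exact δ_sub _ _ _ _ (h3 i).1
  · apply e.injective
    rw [map_sub, map_sub]
    ext i
    simp only [Pi.sub_apply]
    exact δ_sub _ _ _ _ (h3 i).2

lemma P_inj : Function.Injective (P κ e) := by
  intro x y h
  have := (eq_of_dist κ e x y x x (by rw [h])).1
  rw [sub_self] at this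
  exact sub_eq_zero.1 this

/-- the pairs `(x, x ^ 3)` form a Sidon set in characteristic two -/
lemma sidon [CharP F 2] (x y z w : F) (hxy : x ≠ y) (h1 : x - y = z - w)
    (h2 : x ^ 3 - y ^ 3 = z ^ 3 - w ^ 3) : (x = z ∧ y = w) ∨ (x = w ∧ y = z) := by
  have h1' : x + y = z + w := by
    rw [CharTwo.sub_eq_add, CharTwo.sub_eq_add] at h1
    exact h1
  have h2' : x ^ 3 + y ^ 3 = z ^ 3 + w ^ 3 := by
    rw [CharTwo.sub_eq_add, CharTwo.sub_eq_add] at h2
    exact h2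
  have ha : x + y ≠ 0 := by
    rw [← CharTwo.sub_eq_add]
    exact sub_ne_zero.2 hxy
  have h3 : ∀ u v : F, (u + v) ^ 3 = (u ^ 3 + v ^ 3) + 3 * (u * v * (u + v)) := by
    intro u v
    ring
  have h33 : (3 : F) = 1 := by
    have : (2 : F) = 0 := CharTwo.two_eq_zero
    calc (3 : F) = 2 + 1 := by norm_num
      _ = 1 := by rw [this, zero_add]
  have h4 : x * y * (x + y) = z * w * (x + y) := by
    have e1 := h3 x y
    have e2 := h3 z w
    rw [h33, one_mul] at e1 e2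
    rw [← h1', ← h2', e1] at e2
    exact (add_left_cancel e2)
  have h5 : x * y = z * w := mul_right_cancel₀ ha h4
  have h6 : (x - z) * (x - w) = 0 := by
    have : (x - z) * (x - w) = x * x - x * (z + w) + z * w := by ring
    rw [this, ← h1', ← h5]
    ring
  rcases mul_eq_zero.1 h6 with h | h
  · left
    have hxz := sub_eq_zero.1 h
    refine ⟨hxz, ?_⟩
    rw [hxz] at h1'
    exact add_left_cancel h1'
  · right
    have hxw := sub_eq_zero.1 h
    refine ⟨hxw, ?_⟩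
    rw [hxw, add_comm z w] at h1'
    exact add_left_cancel h1'

lemma mem_grid (x : F) (hκ : 1 ≤ κ) : P κ e x ∈ Grid (κ * 3) (2 ^ (κ - 1) + 1) := by
  intro i
  refine ⟨coord κ e x (finProdFinEquiv.symm i), ?_, ?_, rfl⟩
  · unfold coord
    omega
  · unfold coord
    have h1 : ∀ u : ZMod 2, u.val ≤ 1 := by decide
    set p := finProdFinEquiv.symm i
    have h2 : (if p.2 = 0 then (e x p.1).val else (e (x ^ 3) p.1).val) ≤ 1 := by
      split_ifs
      · exact h1 _
      · exact h1 _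
    have h3 : 2 ^ (p.1 : ℕ) ≤ 2 ^ (κ - 1) := by
      apply Nat.pow_le_pow_right (by norm_num)
      have := p.1.isLt
      omega
    have h4 := Nat.mul_le_mul h3 h2
    omega

end Construction

/-- For `κ ≥ 1`, `d = 3 κ` and `n = 2 ^ (κ - 1) + 1` one has `k d n ≥ 2 ^ κ`. -/
theorem k_ge (κ : ℕ) (hκ : 1 ≤ κ) : 2 ^ κ ≤ k (κ * 3) (2 ^ (κ - 1) + 1) := by
  classical
  haveI : Fact (Nat.Prime 2) := ⟨Nat.prime_two⟩
  set F := GaloisField 2 κ with hF
  haveI : Finite F := inferInstance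
  letI : Fintype F := Fintype.ofFinite F
  have hcard : Nat.card F = 2 ^ κ := GaloisField.card 2 κ (by omega)
  have hrank : Module.finrank (ZMod 2) F = κ := GaloisField.finrank 2 (by omega)
  let e : F ≃ₗ[ZMod 2] (Fin κ → ZMod 2) := (Module.finBasisOfFinrankEq (ZMod 2) F hrank).equivFun
  have hmem : (((Finset.univ : Finset F).image (P κ e)).card) ∈
      {m : ℕ | ∃ S : Finset (EuclideanSpace ℝ (Fin (κ * 3))),
        (S : Set _) ⊆ Grid (κ * 3) (2 ^ (κ - 1) + 1) ∧ DistinctDistances S ∧ S.card = m} := by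
    refine ⟨_, ?_, ?_, rfl⟩
    · intro q hq
      rw [mem_coe, mem_image] at hq
      obtain ⟨x, -, rfl⟩ := hq
      exact mem_grid κ e x hκ
    · intro p hp q hq r hr s hs hpq _ hd
      rw [mem_image] at hp hq hr hs
      obtain ⟨x, -, rfl⟩ := hp
      obtain ⟨y, -, rfl⟩ := hq
      obtain ⟨z, -, rfl⟩ := hr
      obtain ⟨w, -, rfl⟩ := hs
      obtain ⟨h1, h2⟩ := eq_of_dist κ e x y z w hd
      have hxy : x ≠ y := fun h => hpq (by rw [h])
      rcases sidon x y z w hxy h1 h2 with ⟨h3, h4⟩ | ⟨h3, h4⟩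
      · left; exact ⟨by rw [h3], by rw [h4]⟩
      · right; exact ⟨by rw [h3], by rw [h4]⟩
  have h1 := le_csSup (bdd (κ * 3) (2 ^ (κ - 1) + 1)) hmem
  rw [card_image_of_injective _ (P_inj κ e), card_univ, ← Nat.card_eq_fintype_card, hcard] at h1
  exact h1

/-- **Answer to the question: the conjectured bound is false.** For every `c > 0` there are `d ≥ 3`
and `n ≥ 2` with `k_d(n) ≥ c d^(2/3) n^(2/3) (log n)^(1/3)`. -/
theorem result : ∀ c : ℝ, 0 < c → ∃ d n : ℕ, 3 ≤ d ∧ 2 ≤ n ∧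
    c * (d : ℝ) ^ (2 / 3 : ℝ) * (n : ℝ) ^ (2 / 3 : ℝ) * (Real.log n) ^ (1 / 3 : ℝ) ≤ (k d n : ℝ) := by
  intro c hc
  -- choose `m` with `9 c m ≤ 2 ^ m`
  obtain ⟨m, hm1, hm2⟩ : ∃ m : ℕ, 1 ≤ m ∧ c * (9 * (m : ℝ)) ≤ 2 ^ m := by
    have h1 := tendsto_pow_const_div_const_pow_of_one_lt 1 (show (1 : ℝ) < 2 by norm_num)
    have h2 : ∀ᶠ m : ℕ in Filter.atTop, (m : ℝ) ^ 1 / 2 ^ m < 1 / (9 * c) :=
      h1.eventually_lt_const (by positivity)
    obtain ⟨m, hm, hm'⟩ := (h2.and (Filter.eventually_ge_atTop 1)).exists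
    refine ⟨m, hm', ?_⟩
    rw [pow_one, div_lt_div_iff₀ (by positivity) (by positivity)] at hm
    linarith
  have hk := k_ge (3 * m) (by omega)
  refine ⟨3 * m * 3, 2 ^ (3 * m - 1) + 1, by omega, ?_, ?_⟩
  · have : 1 ≤ 2 ^ (3 * m - 1) := Nat.one_le_two_pow
    omega
  set n : ℕ := 2 ^ (3 * m - 1) + 1 with hn
  have hn8 : n ≤ 8 ^ m := by
    have h1 : (8 : ℕ) ^ m = 2 ^ (3 * m - 1) * 2 := by
      rw [← pow_succ, show 3 * m - 1 + 1 = 3 * m by omega, pow_mul]
      norm_num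
    have h2 : 1 ≤ 2 ^ (3 * m - 1) := Nat.one_le_two_pow
    omega
  have hn1 : (1 : ℝ) ≤ n := by
    have : 1 ≤ n := by rw [hn]; exact Nat.le_add_left 1 _
    exact_mod_cast this
  have hn8' : (n : ℝ) ≤ 8 ^ m := by exact_mod_cast hn8
  have hm0 : (0 : ℝ) < m := by exact_mod_cast hm1
  have hlog0 : 0 ≤ Real.log n := Real.log_nonneg hn1
  have hlog : Real.log n ≤ 9 * m := by
    have h1 : Real.log n ≤ Real.log (8 ^ m) := Real.log_le_log (by linarith) hn8'
    have h2 : Real.log ((8 : ℝ) ^ m) = m * Real.log 8 := by rw [Real.log_pow]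
    have h3 : Real.log 8 ≤ 8 := by
      have := Real.log_le_sub_one_of_pos (show (0 : ℝ) < 8 by norm_num)
      linarith
    have h4 : (m : ℝ) * Real.log 8 ≤ m * 8 := mul_le_mul_of_nonneg_left h3 hm0.le
    linarith
  have h1 : (Real.log n) ^ (1 / 3 : ℝ) ≤ (9 * (m : ℝ)) ^ (1 / 3 : ℝ) :=
    Real.rpow_le_rpow hlog0 hlog (by norm_num)
  have h2 : (n : ℝ) ^ (2 / 3 : ℝ) ≤ 4 ^ m := by
    have h3 : (n : ℝ) ^ (2 / 3 : ℝ) ≤ ((8 : ℝ) ^ m) ^ (2 / 3 : ℝ) :=
      Real.rpow_le_rpow (by linarith) hn8' (by norm_num)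
    have h4 : ((8 : ℝ) ^ m) ^ (2 / 3 : ℝ) = 4 ^ m := by
      have h5 : (8 : ℝ) ^ m = ((2 : ℝ) ^ m) ^ (3 : ℝ) := by
        rw [show (3 : ℝ) = ((3 : ℕ) : ℝ) by norm_num, Real.rpow_natCast, ← pow_mul, mul_comm, pow_mul]
        norm_num
      have h6 : (4 : ℝ) ^ m = ((2 : ℝ) ^ m) ^ 2 := by
        rw [← pow_mul, mul_comm, pow_mul]
        norm_num
      rw [h5, ← Real.rpow_mul (by positivity), h6]
      norm_num
    rw [h4] at h3
    exact h3
  have hd : ((3 * m * 3 : ℕ) : ℝ) = 9 * m := by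
    push_cast
    ring
  rw [hd]
  have h3 : (9 * (m : ℝ)) ^ (2 / 3 : ℝ) * (9 * (m : ℝ)) ^ (1 / 3 : ℝ) = 9 * m := by
    rw [← Real.rpow_add (by positivity)]
    norm_num
  calc c * (9 * (m : ℝ)) ^ (2 / 3 : ℝ) * (n : ℝ) ^ (2 / 3 : ℝ) * (Real.log n) ^ (1 / 3 : ℝ)
      ≤ c * (9 * (m : ℝ)) ^ (2 / 3 : ℝ) * 4 ^ m * (9 * (m : ℝ)) ^ (1 / 3 : ℝ) := by
        gcongr
    _ = c * ((9 * (m : ℝ)) ^ (2 / 3 : ℝ) * (9 * (m : ℝ)) ^ (1 / 3 : ℝ)) * 4 ^ m := by ring
    _ = c * (9 * m) * 4 ^ m := by rw [h3]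
    _ ≤ 2 ^ m * 4 ^ m := by gcongr
    _ = ((2 ^ (3 * m) : ℕ) : ℝ) := by
        push_cast
        rw [← mul_pow, pow_mul]
        norm_num
    _ ≤ (k (3 * m * 3) n : ℝ) := by exact_mod_cast hk

end Pool.Agent.Results.MP_ae055e_co.LogDimension
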